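import Pool.Agent.W192.CM.Parts

/-!
Project CM (subtask CM-DIVR): divisor bound in `R`.
-/

set_option autoImplicit false

namespace Pool.Agent.W55.CM

open Pool.Agent.W192.CM

noncomputable section

/-- the divisors of `γ`, up to units -/
def A {R : Subring ℂ} (γ : R) : Set (Associates R) := Associates.mk '' {β : R | β ∣ γ}

/-- elements of bounded norm -/
theorem finite_norm (R : Subring ℂ) (ω : ℂ) (h : CMRing R ω) (B : ℝ) :
    {t : R | Complex.normSq (t : ℂ) ≤ B}.Finite := by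
  have him := h.im
  obtain ⟨M1, hM1⟩ := exists_nat_gt ((1 + |B|) / ω.im)
  obtain ⟨M2, hM2⟩ := exists_nat_gt ((1 + |B|) + M1 * |ω.re|)
  let S : Set (ℤ × ℤ) := Set.Icc (-(M2 : ℤ)) M2 ×ˢ Set.Icc (-(M1 : ℤ)) M1
  have hS : S.Finite := (Set.finite_Icc _ _).prod (Set.finite_Icc _ _)
  have hinj : Function.Injective (fun t : R => (t : ℂ)) := Subtype.val_injective
  refine Set.Finite.of_finite_image (f := fun t : R => (t : ℂ)) ?_ hinj.injOn
  refine (hS.image (fun p : ℤ × ℤ => (p.1 : ℂ) + p.2 * ω)).subset ?_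
  rintro _ ⟨t, ht, rfl⟩
  obtain ⟨x, y, hxy⟩ := (h.mem (t : ℂ)).1 t.2
  have ht' : Complex.normSq (t : ℂ) ≤ B := ht
  have h1 : (t : ℂ).im = y * ω.im := by rw [hxy]; simp
  have h2 : (t : ℂ).re = x + y * ω.re := by rw [hxy]; simp
  have h3 : |(t : ℂ).im| ≤ 1 + |B| := by
    have h4 := Complex.normSq_apply (t : ℂ)
    have h5 := le_abs_self B
    have h6 : (t : ℂ).im * (t : ℂ).im ≤ |B| := by nlinarith [mul_self_nonneg (t : ℂ).re]
    rw [abs_le]
    constructor <;> nlinarith [abs_nonneg B]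
  have h3' : |(t : ℂ).re| ≤ 1 + |B| := by
    have h4 := Complex.normSq_apply (t : ℂ)
    have h5 := le_abs_self B
    have h6 : (t : ℂ).re * (t : ℂ).re ≤ |B| := by nlinarith [mul_self_nonneg (t : ℂ).im]
    rw [abs_le]
    constructor <;> nlinarith [abs_nonneg B]
  have hy : |(y : ℝ)| ≤ M1 := by
    rw [h1, abs_mul, abs_of_pos him] at h3
    have h7 : |(y : ℝ)| ≤ (1 + |B|) / ω.im := by rwa [le_div_iff₀ him]
    linarith
  have hx : |(x : ℝ)| ≤ M2 := by
    have h8 : (x : ℝ) = (t : ℂ).re - y * ω.re := by rw [h2]; ring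
    rw [h8]
    have h9 := abs_sub (t : ℂ).re (y * ω.re)
    rw [abs_mul] at h9
    have h10 : |(y : ℝ)| * |ω.re| ≤ M1 * |ω.re| := mul_le_mul_of_nonneg_right hy (abs_nonneg _)
    linarith
  have hx' : |x| ≤ (M2 : ℤ) := by exact_mod_cast hx
  have hy' : |y| ≤ (M1 : ℤ) := by exact_mod_cast hy
  refine ⟨(x, y), ⟨?_, ?_⟩, ?_⟩
  · exact abs_le.1 hx'
  · exact abs_le.1 hy'
  · exact hxy.symm

section
variable {R : Subring ℂ} {ω : ℂ}

theorem ns_mul (a b : R) : Complex.normSq ((a * b : R) : ℂ) =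
    Complex.normSq (a : ℂ) * Complex.normSq (b : ℂ) := by
  rw [Subring.coe_mul, Complex.normSq_mul]

theorem ns_pos {a : R} (ha : a ≠ 0) : 0 < Complex.normSq (a : ℂ) := by
  rw [Complex.normSq_pos]
  intro h
  exact ha (Subtype.ext h)

theorem ns_one (hN : ∀ α : R, ∃ n : ℕ, Complex.normSq (α : ℂ) = n) {a : R} (ha : a ≠ 0) :
    1 ≤ Complex.normSq (a : ℂ) := by
  obtain ⟨n, hn⟩ := hN a
  have h1 := ns_pos ha
  rw [hn] at h1 ⊢
  exact_mod_cast h1

theorem ns_two (hN : ∀ α : R, ∃ n : ℕ, Complex.normSq (α : ℂ) = n)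
    (hU : ∀ α : R, IsUnit α ↔ Complex.normSq (α : ℂ) = 1) {a : R} (ha : a ≠ 0)
    (hu : ¬ IsUnit a) : 2 ≤ Complex.normSq (a : ℂ) := by
  obtain ⟨n, hn⟩ := hN a
  have h1 := ns_pos ha
  have h2 : ¬ Complex.normSq (a : ℂ) = 1 := fun h => hu ((hU a).2 h)
  rw [hn] at h1 h2 ⊢
  have h3 : 0 < n := by exact_mod_cast h1
  have h4 : n ≠ 1 := by
    intro h
    exact h2 (by rw [h]; norm_num)
  have h5 : 2 ≤ n := by omega
  exact_mod_cast h5

theorem dvd_fin (h : CMRing R ω) (hN : ∀ α : R, ∃ n : ℕ, Complex.normSq (α : ℂ) = n)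
    (γ : R) (hγ : γ ≠ 0) : {β : R | β ∣ γ}.Finite := by
  refine (finite_norm R ω h (Complex.normSq (γ : ℂ))).subset ?_
  rintro β ⟨δ, hδ⟩
  have hδ0 : δ ≠ 0 := by
    rintro rfl
    exact hγ (by rw [hδ, mul_zero])
  have h1 := ns_one hN hδ0
  show Complex.normSq (β : ℂ) ≤ Complex.normSq (γ : ℂ)
  rw [hδ, ns_mul]
  nlinarith [Complex.normSq_nonneg (β : ℂ)]

theorem A_fin (h : CMRing R ω) (hN : ∀ α : R, ∃ n : ℕ, Complex.normSq (α : ℂ) = n)
    (γ : R) (hγ : γ ≠ 0) : (A γ).Finite := (dvd_fin h hN γ hγ).image _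

theorem A_mul [DecompositionMonoid R] (h : CMRing R ω)
    (hN : ∀ α : R, ∃ n : ℕ, Complex.normSq (α : ℂ) = n)
    (x y : R) (hx : x ≠ 0) (hy : y ≠ 0) : (A (x * y)).ncard ≤ (A x).ncard * (A y).ncard := by
  have h1 : A (x * y) ⊆ (fun p : Associates R × Associates R => p.1 * p.2) '' ((A x) ×ˢ (A y)) := by
    rintro _ ⟨β, hβ, rfl⟩
    obtain ⟨b1, b2, h1, h2, h3⟩ := exists_dvd_and_dvd_of_dvd_mul hβ
    refine ⟨(Associates.mk b1, Associates.mk b2), ⟨⟨b1, h1, rfl⟩, ⟨b2, h2, rfl⟩⟩, ?_⟩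
    rw [h3, Associates.mk_mul_mk.symm]
  have hf : ((A x) ×ˢ (A y)).Finite := (A_fin h hN x hx).prod (A_fin h hN y hy)
  calc (A (x * y)).ncard ≤ _ := Set.ncard_le_ncard h1 (hf.image _)
    _ ≤ ((A x) ×ˢ (A y)).ncard := Set.ncard_image_le hf
    _ = _ := Set.ncard_prod

theorem A_unit (u : R) (hu : IsUnit u) : (A u).ncard ≤ 1 := by
  have h1 : A u ⊆ {1} := by
    rintro _ ⟨β, hβ, rfl⟩
    have : IsUnit β := isUnit_of_dvd_unit hβ hu
    exact Associates.mk_eq_one.2 this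
  calc (A u).ncard ≤ ({1} : Set (Associates R)).ncard := Set.ncard_le_ncard h1
    _ = 1 := Set.ncard_singleton _

theorem A_pow (p : R) (hp : Prime p) (i : ℕ) : (A (p ^ i)).ncard ≤ i + 1 := by
  have h1 : A (p ^ i) ⊆ (fun j : ℕ => Associates.mk (p ^ j)) '' (Set.Iic i) := by
    rintro _ ⟨β, hβ, rfl⟩
    obtain ⟨j, hj, hj'⟩ := (dvd_prime_pow hp i).1 hβ
    exact ⟨j, hj, (Associates.mk_eq_mk_iff_associated.2 hj').symm⟩
  calc (A (p ^ i)).ncard ≤ _ := Set.ncard_le_ncard h1 ((Set.finite_Iic i).image _)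
    _ ≤ (Set.Iic i).ncard := Set.ncard_image_le (Set.finite_Iic i)
    _ = i + 1 := by
      rw [← Finset.coe_Iic, Set.ncard_coe_finset, Nat.card_Iic]

theorem D_le (h : CMRing R ω) (hN : ∀ α : R, ∃ n : ℕ, Complex.normSq (α : ℂ) = n)
    (hfU : Finite Rˣ) (γ : R) (hγ : γ ≠ 0) :
    ({β : R | β ∣ γ}).ncard ≤ Nat.card Rˣ * (A γ).ncard := by
  have h1 : {β : R | β ∣ γ} ⊆ (fun p : Rˣ × Associates R => (Quot.out p.2 : R) * p.1) ''
      ((Set.univ : Set Rˣ) ×ˢ (A γ)) := by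
    intro β hβ
    obtain ⟨u, hu⟩ := Associates.mk_quot_out β
    exact ⟨(u, Associates.mk β), ⟨Set.mem_univ _, ⟨β, hβ, rfl⟩⟩, hu⟩
  have hf : ((Set.univ : Set Rˣ) ×ˢ (A γ)).Finite := Set.finite_univ.prod (A_fin h hN γ hγ)
  calc ({β : R | β ∣ γ}).ncard ≤ _ := Set.ncard_le_ncard h1 (hf.image _)
    _ ≤ ((Set.univ : Set Rˣ) ×ˢ (A γ)).ncard := Set.ncard_image_le hf
    _ = _ := by rw [Set.ncard_prod, Set.ncard_univ]

end

theorem i_le (η : ℝ) (hη : 0 < η) (i : ℕ) :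
    ((i : ℝ) + 1) ≤ (1 + 2 / η) * ((2 : ℝ) ^ η) ^ i := by
  have h1 : ((2 : ℝ) ^ η) ^ i = Real.exp (Real.log 2 * (η * i)) := by
    rw [← Real.rpow_natCast, ← Real.rpow_mul (by norm_num), Real.rpow_def_of_pos (by norm_num)]
  have h2 : Real.log 2 * (η * i) + 1 ≤ Real.exp (Real.log 2 * (η * i)) := Real.add_one_le_exp _
  have h3 : (1 : ℝ) / 2 ≤ Real.log 2 := by have := Real.log_two_gt_d9; linarith
  have hi : (0 : ℝ) ≤ i := Nat.cast_nonneg i
  have h4 : (1 : ℝ) / 2 * (η * i) ≤ Real.log 2 * (η * i) :=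
    mul_le_mul_of_nonneg_right h3 (by positivity)
  rw [h1]
  have h5 : 1 + η * i / 2 ≤ Real.exp (Real.log 2 * (η * i)) := by linarith
  have h6 : (0 : ℝ) < 1 + 2 / η := by positivity
  calc (i : ℝ) + 1 ≤ (1 + 2 / η) * (1 + η * i / 2) := by
        have : (1 + 2 / η) * (1 + η * i / 2) = 1 + 2 / η + η * i / 2 + i := by
          field_simp; ring
        rw [this]
        have : (0 : ℝ) ≤ 2 / η + η * i / 2 := by positivity
        linarith
    _ ≤ _ := mul_le_mul_of_nonneg_left h5 h6.le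

theorem c_divr (hB : C_BASIC) : C_DIVR := by
  intro R ω hR η hη
  obtain ⟨hN, hU, -, hfU, -⟩ := hB R ω hR
  have := hR.pid
  have : IsDomain R := inferInstance
  have : UniqueFactorizationMonoid R := inferInstance
  have : DecompositionMonoid R := inferInstance
  obtain ⟨B, hBdef⟩ : ∃ B : ℝ, B = (2 : ℝ) ^ (1 / η) := ⟨_, rfl⟩
  have hT := finite_norm R ω hR B
  obtain ⟨c, hc⟩ : ∃ c : ℝ, c = 1 + 2 / η := ⟨_, rfl⟩
  have hc1 : 1 ≤ c := by
    rw [hc]
    have : 0 < 2 / η := by positivity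
    linarith
  -- the small primes dividing `a`
  let T : R → Set R := fun a => {t : R | Complex.normSq (t : ℂ) ≤ B ∧ Prime t ∧ t ∣ a}
  have hTf : ∀ a, (T a).Finite := fun a => hT.subset (fun t ht => ht.1)
  have key : ∀ γ : R, γ ≠ 0 → ((A γ).ncard : ℝ) ≤ c ^ (T γ).ncard * (Complex.normSq (γ : ℂ)) ^ η := by
    intro γ
    refine UniqueFactorizationMonoid.induction_on_coprime γ ?_ ?_ ?_ ?_
    · intro h; exact absurd rfl h
    · intro u hu _
      have h1 : Complex.normSq (u : ℂ) = 1 := (hU u).1 hu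
      rw [h1, Real.one_rpow, mul_one]
      have h2 : ((A u).ncard : ℝ) ≤ 1 := by exact_mod_cast A_unit u hu
      exact h2.trans (one_le_pow₀ hc1)
    · intro p i hp _
      have h1 : ((A (p ^ i)).ncard : ℝ) ≤ i + 1 := by exact_mod_cast A_pow p hp i
      refine h1.trans ?_
      have hp0 : 0 < Complex.normSq (p : ℂ) := ns_pos hp.ne_zero
      have hp2 : 2 ≤ Complex.normSq (p : ℂ) := ns_two hN hU hp.ne_zero hp.not_isUnit
      have h2 : (Complex.normSq ((p ^ i : R) : ℂ)) ^ η = ((Complex.normSq (p : ℂ)) ^ η) ^ i := by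
        rw [Subring.coe_pow, map_pow, ← Real.rpow_natCast, ← Real.rpow_mul hp0.le,
          ← Real.rpow_natCast, ← Real.rpow_mul hp0.le, mul_comm]
      rw [h2]
      by_cases hi : i = 0
      · subst hi
        simp only [Nat.cast_zero, zero_add, pow_zero, mul_one]
        exact one_le_pow₀ hc1
      by_cases hsm : Complex.normSq (p : ℂ) ≤ B
      · have h3 : 1 ≤ (T (p ^ i)).ncard := by
          rw [Nat.one_le_iff_ne_zero]
          intro h
          rw [Set.ncard_eq_zero (hTf _)] at h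
          have : p ∈ T (p ^ i) := ⟨hsm, hp, dvd_pow_self p hi⟩
          rw [h] at this
          exact this
        have h4 : c ≤ c ^ (T (p ^ i)).ncard := by
          calc c = c ^ 1 := (pow_one c).symm
            _ ≤ _ := pow_le_pow_right₀ hc1 h3
        have h5 : ((2 : ℝ) ^ η) ^ i ≤ ((Complex.normSq (p : ℂ)) ^ η) ^ i := by
          apply pow_le_pow_left₀ (by positivity)
          exact Real.rpow_le_rpow (by norm_num) hp2 hη.le
        have h6 := i_le η hη i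
        rw [← hc] at h6
        calc (i : ℝ) + 1 ≤ c * ((2 : ℝ) ^ η) ^ i := h6
          _ ≤ c ^ (T (p ^ i)).ncard * ((Complex.normSq (p : ℂ)) ^ η) ^ i := by
            apply mul_le_mul h4 h5 (by positivity) (by positivity)
      · rw [not_le] at hsm
        have h3 : (2 : ℝ) ≤ (Complex.normSq (p : ℂ)) ^ η := by
          have h4 : B ^ η = 2 := by
            rw [hBdef, ← Real.rpow_mul (by norm_num), one_div, inv_mul_cancel₀ hη.ne',
              Real.rpow_one]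
          rw [← h4]
          apply Real.rpow_le_rpow _ hsm.le hη.le
          rw [hBdef]
          positivity
        have h4 : (i : ℝ) + 1 ≤ 2 ^ i := by
          have : i + 1 ≤ 2 ^ i := Nat.lt_two_pow_self
          exact_mod_cast this
        have h5 : (2 : ℝ) ^ i ≤ ((Complex.normSq (p : ℂ)) ^ η) ^ i :=
          pow_le_pow_left₀ (by norm_num) h3 i
        have h6 : (1 : ℝ) ≤ c ^ (T (p ^ i)).ncard := one_le_pow₀ hc1
        calc (i : ℝ) + 1 ≤ ((Complex.normSq (p : ℂ)) ^ η) ^ i := h4.trans h5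
          _ ≤ _ := le_mul_of_one_le_left (by positivity) h6
    · intro x y hxy hx hy hne
      have hx0 : x ≠ 0 := left_ne_zero_of_mul hne
      have hy0 : y ≠ 0 := right_ne_zero_of_mul hne
      have h1 := hx hx0
      have h2 := hy hy0
      have h3 : ((A (x * y)).ncard : ℝ) ≤ (A x).ncard * (A y).ncard := by
        exact_mod_cast A_mul hR hN x y hx0 hy0
      have h4 : (T x).ncard + (T y).ncard ≤ (T (x * y)).ncard := by
        rw [← Set.ncard_union_eq ?_ (hTf x) (hTf y)]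
        · apply Set.ncard_le_ncard _ (hTf _)
          rintro t (ht | ht)
          · exact ⟨ht.1, ht.2.1, ht.2.2.mul_right y⟩
          · exact ⟨ht.1, ht.2.1, ht.2.2.mul_left x⟩
        · rw [Set.disjoint_left]
          intro t ht1 ht2
          exact ht1.2.1.not_isUnit (hxy ht1.2.2 ht2.2.2)
      have h5 : c ^ (T x).ncard * c ^ (T y).ncard ≤ c ^ (T (x * y)).ncard := by
        rw [← pow_add]
        exact pow_le_pow_right₀ hc1 h4
      have hnx : 0 ≤ (Complex.normSq (x : ℂ)) ^ η := Real.rpow_nonneg (Complex.normSq_nonneg _) _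
      have hny : 0 ≤ (Complex.normSq (y : ℂ)) ^ η := Real.rpow_nonneg (Complex.normSq_nonneg _) _
      rw [ns_mul, Real.mul_rpow (Complex.normSq_nonneg _) (Complex.normSq_nonneg _)]
      have hc0 : 0 ≤ c := by linarith
      calc ((A (x * y)).ncard : ℝ) ≤ (A x).ncard * (A y).ncard := h3
        _ ≤ (c ^ (T x).ncard * (Complex.normSq (x : ℂ)) ^ η) *
            (c ^ (T y).ncard * (Complex.normSq (y : ℂ)) ^ η) :=
          mul_le_mul h1 h2 (Nat.cast_nonneg _) (mul_nonneg (pow_nonneg hc0 _) hnx)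
        _ = (c ^ (T x).ncard * c ^ (T y).ncard) *
            ((Complex.normSq (x : ℂ)) ^ η * (Complex.normSq (y : ℂ)) ^ η) := by ring
        _ ≤ _ := mul_le_mul_of_nonneg_right h5 (mul_nonneg hnx hny)
  have hc0 : 0 < c := by linarith
  refine ⟨Nat.card Rˣ * c ^ (hT.toFinset.card) + 1, by positivity, ?_⟩
  intro γ hγ
  refine ⟨dvd_fin hR hN γ hγ, ?_⟩
  have h1 : (({β : R | β ∣ γ}).ncard : ℝ) ≤ Nat.card Rˣ * (A γ).ncard := by
    exact_mod_cast D_le hR hN hfU γ hγ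
  have h2 := key γ hγ
  have h3 : (T γ).ncard ≤ hT.toFinset.card := by
    rw [← Set.ncard_coe_finset, Set.Finite.coe_toFinset]
    exact Set.ncard_le_ncard (fun t ht => ht.1) hT
  have h4 : c ^ (T γ).ncard ≤ c ^ hT.toFinset.card := pow_le_pow_right₀ hc1 h3
  have hng : 0 ≤ (Complex.normSq (γ : ℂ)) ^ η := Real.rpow_nonneg (Complex.normSq_nonneg _) _
  calc (({β : R | β ∣ γ}).ncard : ℝ) ≤ Nat.card Rˣ * (A γ).ncard := h1
    _ ≤ Nat.card Rˣ * (c ^ (T γ).ncard * (Complex.normSq (γ : ℂ)) ^ η) :=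
      mul_le_mul_of_nonneg_left h2 (Nat.cast_nonneg _)
    _ ≤ Nat.card Rˣ * (c ^ hT.toFinset.card * (Complex.normSq (γ : ℂ)) ^ η) :=
      mul_le_mul_of_nonneg_left (mul_le_mul_of_nonneg_right h4 hng) (Nat.cast_nonneg _)
    _ = (Nat.card Rˣ * c ^ hT.toFinset.card) * (Complex.normSq (γ : ℂ)) ^ η := by ring
    _ ≤ (Nat.card Rˣ * c ^ hT.toFinset.card + 1) * (Complex.normSq (γ : ℂ)) ^ η := by
      apply mul_le_mul_of_nonneg_right _ hng
      linarith

end

end Pool.Agent.W55.CM
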